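import Pool.Agent.H.MP_5b5905_lc.A

namespace Pool.Agent.Results.MP_5b5905_lc.No

open Pool.Agent.H.MP_5b5905_lc Pool.Agent.Lib.helper21.Queue

/-- The table of a Mealy automaton: row `q`, column `x` holds `(δ q x, ℓ q x)`. -/
def table {p k : ℕ} (δ : Fin p → Fin k → Fin p) (ℓ : Fin p → Fin k → Fin k) : List (List (ℕ × ℕ)) :=
  List.ofFn fun q => List.ofFn fun x => ((δ q x).val, (ℓ q x).val)

theorem result : ¬ ∃ f : List (List (ℕ × ℕ)) → Bool, Computable f ∧ ∀ (p k : ℕ)
    (δ : Fin p → Fin k → Fin p) (ℓ : Fin p → Fin k → Fin k),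
      f (table δ ℓ) = true ↔ WeaklyReset δ ℓ := by
  rintro ⟨f, hf, h⟩
  obtain ⟨Q, S, _, _, δ, q0, a, e, hg, hn⟩ := exists_qa
  obtain ⟨B, hB⟩ := (Set.finite_range fun p : Q × S => (δ p.1 p.2).2.length).bddAbove
  replace hB : ∀ q x, (δ q x).2.length ≤ B := fun q x => hB ⟨(q, x), rfl⟩
  have : Finite (Lt Q S) := .of_surjective (α := Fin 3 ⊕ Option Q ⊕ S)
    (Sum.elim ![.c, .d, .b] (Sum.elim .hd .sy)) fun x => by
      cases x
      exacts [⟨.inl 0, rfl⟩, ⟨.inl 1, rfl⟩, ⟨.inl 2, rfl⟩, ⟨.inr (.inl _), rfl⟩, ⟨.inr (.inr _), rfl⟩]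
  have : Finite {l : List S // l.length ≤ B} := (List.finite_length_le S B).to_subtype
  have : Finite (S1 Q S B) := .of_surjective (α := Fin 2 ⊕ Q ⊕ {l : List S // l.length ≤ B})
    (Sum.elim ![.z, .s] (Sum.elim .rd .cw)) fun x => by
      cases x
      exacts [⟨.inl 0, rfl⟩, ⟨.inl 1, rfl⟩, ⟨.inr (.inl _), rfl⟩, ⟨.inr (.inr _), rfl⟩]
  obtain ⟨K, ⟨e1⟩⟩ := Finite.exists_equiv_fin (S1 Q S B)
  obtain ⟨L, ⟨eA⟩⟩ := Finite.exists_equiv_fin (Lt Q S)
  let eQ := fun n => (e1.sumCongr (.refl (Fin (n + 3)))).trans finSumFinEquiv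
  let D := fun n q x => eQ n (dd δ hB n ((eQ n).symm q) (eA.symm x))
  let O := fun n q x => eA (ll δ q0 a e n ((eQ n).symm q) (eA.symm x))
  let dv : ℕ → ℕ → Lt Q S → ℕ := fun n j x => match x with
    | .c => K
    | .d => e1 .z
    | _ => K + min (j + 1) (n + 2)
  have hp : Primrec fun n => table (D n) (O n) := by
    have p1 : ∀ x, Primrec fun p : ℕ × ℕ => dv p.1 p.2 x := fun x => by
      have := Primrec.nat_add.comp (.const K) (Primrec.nat_min.comp (Primrec.succ.comp .snd)
        (Primrec.succ.comp (Primrec.succ.comp (.fst (α := ℕ) (β := ℕ)))))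
      cases x
      exacts [.const _, .const _, this, this, this]
    have p2 : ∀ x, Primrec fun p : ℕ × ℕ => (eA (l2 q0 a e p.1 p.2 x)).val := fun x => by
      have : Primrec fun p : ℕ × ℕ => (eA (l2 q0 a e p.1 p.2 .b)).val :=
        by
          simp only [l2, apply_ite eA, apply_ite Fin.val]
          exact .ite (Primrec.eq.comp .snd (.const 0)) (.const _) (.ite (Primrec.nat_le.comp .snd .fst)
            (.const _) (.ite (Primrec.eq.comp .snd (Primrec.succ.comp .fst)) (.const _) (.const _)))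
      cases x
      · exact .const (eA .c).val
      · simp only [l2, apply_ite eA, apply_ite Fin.val]
        exact .ite (Primrec.eq.comp .snd (Primrec.succ.comp (Primrec.succ.comp .fst)))
          (.const _) (.const _)
      all_goals exact this
    refine (Primrec.list_append.comp (.const (List.ofFn fun q => List.ofFn fun x =>
      ((e1 (d1 δ hB (e1.symm q) (eA.symm x))).val, (eA (l1 δ (e1.symm q) (eA.symm x))).val)))
      (Primrec.list_map (Primrec.list_range.comp (Primrec.nat_add.comp .id (.const 3)))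
        (Primrec.list_ofFn fun x => (p1 (eA.symm x)).pair (p2 (eA.symm x))).to₂)).of_eq fun n => ?_
    rw [table, List.ofFn_add, id, ← List.map_coe_finRange_eq_range, List.map_map, ← List.ofFn_eq_map]
    congr 2 <;> funext q <;> refine congrArg _ (funext fun x => ?_)
    · simp [D, O, eQ, dd, ll, show Fin.castLE (Nat.le_add_right _ _) q = Fin.castAdd (n + 3) q from rfl]
    · simp only [D, O, eQ, Equiv.symm_trans_apply, finSumFinEquiv_symm_apply_natAdd]
      cases eA.symm x <;> simp [dv, dd, ll]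
  refine hn (ComputablePred.computable_iff.2 ⟨_, hf.comp hp.to_comp, funext fun n => ?_⟩)
  rw [h, ← main (hB := hB) (hg n), eq_iff_iff]
  exact ⟨.map (eQ n) eA (by simp [D]) (by simp [O]), .map (eQ n).symm eA.symm (by simp [D])
    (by simp [O])⟩

end Pool.Agent.Results.MP_5b5905_lc.No
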